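import Pool.Agent.Run7.h230.QF.Stm

set_option autoImplicit false

namespace Pool.Agent.Run7.h228.QF

open Pool.Agent.H97R3.VR (IsMedian IsConvex Btw)
open Pool.Agent.TH97.VR (walls walls_compl wall_convex walls_sep)
open Pool.Agent.Run7.h230.QF

theorem convex_iInter {V : Type} {Γ : SimpleGraph V} {P : Set V → Prop}
    (hP : ∀ A, P A → IsConvex Γ A) : IsConvex Γ {v | ∀ A, P A → v ∈ A} := by
  intro u hu v hv m hm A hA
  exact hP A hA u (hu A hA) v (hv A hA) m hm

theorem t_BASE : S_HEL → S_GATE → S_BASE := by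
  classical
  intro hHEL hGATE V Γ hΓ m N hG
  obtain ⟨𝒜, hcard, hsep, hcross⟩ := hG
  choose xs ys hxy using hsep
  have hw : ∀ a, ∀ A ∈ 𝒜 a, A ∈ walls Γ := fun a A hA => (hxy a A hA).1
  have hconv : ∀ a, ∀ A ∈ 𝒜 a, IsConvex Γ A := fun a A hA => wall_convex hΓ (hw a A hA)
  have hconvc : ∀ a, ∀ A ∈ 𝒜 a, IsConvex Γ Aᶜ := fun a A hA =>
    wall_convex hΓ (walls_compl hΓ (hw a A hA))
  set C : Fin m → Set V := fun a => {v | ∀ A ∈ 𝒜 a, v ∈ A} with hC
  have hCne : ∀ a, (C a).Nonempty := fun a => ⟨ys a, fun A hA => (hxy a A hA).2.2⟩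
  have hCconv : ∀ a, IsConvex Γ (C a) := fun a => by
    intro u hu v hv m hm A hA
    exact hconv a A hA u (hu A hA) v (hv A hA) m hm
  -- intersections
  have hCC : ∀ a b, (C a ∩ C b).Nonempty := by
    intro a b
    by_cases hab : a = b
    · subst hab
      rw [Set.inter_self]
      exact hCne a
    · obtain ⟨v, hv⟩ := hHEL V Γ hΓ (𝒜 a ∪ 𝒜 b) (by
        intro A hA
        rcases Finset.mem_union.1 hA with h | h
        · exact hconv a A h
        · exact hconv b A h) (by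
        intro A hA B hB
        rcases Finset.mem_union.1 hA with h | h <;> rcases Finset.mem_union.1 hB with h' | h'
        · exact ⟨ys a, (hxy a A h).2.2, (hxy a B h').2.2⟩
        · exact (hcross a b hab A h B h').1
        · exact (hcross b a (Ne.symm hab) A h B h').1
        · exact ⟨ys b, (hxy b A h).2.2, (hxy b B h').2.2⟩)
      exact ⟨v, fun A hA => hv A (Finset.mem_union_left _ hA),
        fun A hA => hv A (Finset.mem_union_right _ hA)⟩
  have hCD : ∀ a c, a ≠ c → ∃ v ∈ C a, ∀ A ∈ 𝒜 c, v ∉ A := by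
    intro a c hac
    obtain ⟨v, hv⟩ := hHEL V Γ hΓ (𝒜 a ∪ (𝒜 c).image (fun A => Aᶜ)) (by
      intro A hA
      rcases Finset.mem_union.1 hA with h | h
      · exact hconv a A h
      · obtain ⟨B, hB, rfl⟩ := Finset.mem_image.1 h
        exact hconvc c B hB) (by
      intro A hA B hB
      rcases Finset.mem_union.1 hA with h | h <;> rcases Finset.mem_union.1 hB with h' | h'
      · exact ⟨ys a, (hxy a A h).2.2, (hxy a B h').2.2⟩
      · obtain ⟨B', hB', rfl⟩ := Finset.mem_image.1 h'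
        exact (hcross a c hac A h B' hB').2.1
      · obtain ⟨A', hA', rfl⟩ := Finset.mem_image.1 h
        rw [Set.inter_comm]
        exact (hcross a c hac B h' A' hA').2.1
      · obtain ⟨A', hA', rfl⟩ := Finset.mem_image.1 h
        obtain ⟨B', hB', rfl⟩ := Finset.mem_image.1 h'
        exact ⟨xs c, (hxy c A' hA').2.1, (hxy c B' hB').2.1⟩)
    refine ⟨v, fun A hA => hv A (Finset.mem_union_left _ hA), fun A hA => ?_⟩
    exact hv Aᶜ (Finset.mem_union_right _ (Finset.mem_image_of_mem _ hA))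
  -- bad half-spaces
  set Bad : Set V → Prop := fun u => u ∈ walls Γ ∧ ∃ a b, a ≠ b ∧ C a ⊆ u ∧ C b ⊆ u with hBad
  set DD : Finset (Set V) := Finset.univ.biUnion (fun a => (𝒜 a).image (fun A => Aᶜ)) with hDD
  have hDDmem : ∀ B, B ∈ DD ↔ ∃ a, ∃ A ∈ 𝒜 a, Aᶜ = B := by
    intro B
    simp only [hDD, Finset.mem_biUnion, Finset.mem_univ, true_and, Finset.mem_image]
  have hDDconv : ∀ B ∈ DD, IsConvex Γ B := by
    intro B hB
    obtain ⟨a, A, hA, rfl⟩ := (hDDmem B).1 hB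
    exact hconvc a A hA
  have hDDpair : ∀ A ∈ DD, ∀ B ∈ DD, (A ∩ B).Nonempty := by
    intro A hA B hB
    obtain ⟨a, A', hA', rfl⟩ := (hDDmem A).1 hA
    obtain ⟨b, B', hB', rfl⟩ := (hDDmem B).1 hB
    by_cases hab : a = b
    · subst hab
      exact ⟨xs a, (hxy a A' hA').2.1, (hxy a B' hB').2.1⟩
    · exact (hcross a b hab A' hA' B' hB').2.2.2
  have hBadD : ∀ u, Bad u → ∀ B ∈ DD, (u ∩ B).Nonempty := by
    rintro u ⟨-, a, b, hab, hau, hbu⟩ B hB
    obtain ⟨c, A, hA, rfl⟩ := (hDDmem B).1 hB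
    by_cases hac : a = c
    · subst hac
      obtain ⟨v, hv, hv'⟩ := hCD b a (Ne.symm hab)
      exact ⟨v, hbu hv, hv' A hA⟩
    · obtain ⟨v, hv, hv'⟩ := hCD a c hac
      exact ⟨v, hau hv, hv' A hA⟩
  have hBadB : ∀ u, Bad u → ∀ u', Bad u' → (u ∩ u').Nonempty := by
    rintro u ⟨-, a, b, hab, hau, hbu⟩ u' ⟨-, a', b', hab', hau', hbu'⟩
    obtain ⟨v, hv, hv'⟩ := hCC a a'
    exact ⟨v, hau hv, hau' hv'⟩
  set X0 : Set V := {v | ∀ B ∈ DD, v ∈ B} with hX0
  have hX0conv : IsConvex Γ X0 := by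
    intro u hu v hv m hm A hA
    exact hDDconv A hA u (hu A hA) v (hv A hA) m hm
  have hX0ne : X0.Nonempty := hHEL V Γ hΓ DD hDDconv hDDpair
  have hX0u : ∀ u, Bad u → ∀ u', Bad u' → ∃ v ∈ X0, v ∈ u ∧ v ∈ u' := by
    intro u hu u' hu'
    obtain ⟨v, hv⟩ := hHEL V Γ hΓ (insert u (insert u' DD)) (by
      intro A hA
      rcases Finset.mem_insert.1 hA with rfl | hA
      · exact wall_convex hΓ hu.1
      · rcases Finset.mem_insert.1 hA with rfl | hA
        · exact wall_convex hΓ hu'.1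
        · exact hDDconv A hA) (by
      have key : ∀ A, (A = u ∨ A = u' ∨ A ∈ DD) → ∀ B, (B = u ∨ B = u' ∨ B ∈ DD) →
          (A ∩ B).Nonempty := by
        rintro A (rfl | rfl | hA) B (rfl | rfl | hB)
        · exact hBadB _ hu _ hu
        · exact hBadB _ hu _ hu'
        · exact hBadD _ hu _ hB
        · exact hBadB _ hu' _ hu
        · exact hBadB _ hu' _ hu'
        · exact hBadD _ hu' _ hB
        · rw [Set.inter_comm]; exact hBadD _ hu _ hA
        · rw [Set.inter_comm]; exact hBadD _ hu' _ hA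
        · exact hDDpair _ hA _ hB
      intro A hA B hB
      refine key A ?_ B ?_
      · simpa [Finset.mem_insert] using hA
      · simpa [Finset.mem_insert] using hB)
    refine ⟨v, fun B hB => hv B (by simp [hB]), hv u (by simp), hv u' (by simp)⟩
  -- the number of the bad half-spaces which do not contain the point
  have hfin : ∀ x, {u | Bad u ∧ x ∉ u}.Finite := by
    intro x
    refine Set.Finite.subset (Set.finite_iUnion fun a : Fin m => (walls_sep hΓ (ys a) x).1) ?_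
    rintro u ⟨⟨hu, a, b, -, hau, -⟩, hx⟩
    exact Set.mem_iUnion.2 ⟨a, hu, hau (fun A hA => (hxy a A hA).2.2), hx⟩
  have hmain : ∀ n : ℕ, ∀ x ∈ X0, {u | Bad u ∧ x ∉ u}.ncard = n →
      ∃ x' ∈ X0, ∀ u, Bad u → x' ∈ u := by
    intro n
    induction n using Nat.strong_induction_on with
    | _ n ih =>
      intro x hx hn
      by_cases hall : ∀ u, Bad u → x ∈ u
      · exact ⟨x, hx, hall⟩
      · push Not at hall
        obtain ⟨u₀, hu₀, hxu₀⟩ := hall
        obtain ⟨v, hv, hvu, -⟩ := hX0u u₀ hu₀ u₀ hu₀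
        obtain ⟨x', hx', hgate⟩ := hGATE V Γ hΓ (X0 ∩ u₀) (by
          intro p hp q hq m hm
          exact ⟨hX0conv p hp.1 q hq.1 m hm, wall_convex hΓ hu₀.1 p hp.2 q hq.2 m hm⟩)
          ⟨v, hv, hvu⟩ x
        have hsub : {u | Bad u ∧ x' ∉ u} ⊆ {u | Bad u ∧ x ∉ u} \ {u₀} := by
          rintro u ⟨hu, hxu⟩
          refine ⟨⟨hu, fun hxu' => ?_⟩, fun h => ?_⟩
          · have h1 := hgate uᶜ (walls_compl hΓ hu.1) (fun h => h hxu') hxu
            obtain ⟨p, hp, hp1, hp2⟩ := hX0u u₀ hu₀ u hu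
            exact h1 ⟨hp, hp1⟩ hp2
          · rw [Set.mem_singleton_iff] at h
            rw [h] at hxu
            exact hxu hx'.2
        have hlt : {u | Bad u ∧ x' ∉ u}.ncard < n := by
          calc {u | Bad u ∧ x' ∉ u}.ncard ≤ ({u | Bad u ∧ x ∉ u} \ {u₀}).ncard :=
                Set.ncard_le_ncard hsub ((hfin x).subset Set.sdiff_subset)
            _ < {u | Bad u ∧ x ∉ u}.ncard :=
                Set.ncard_sdiff_singleton_lt_of_mem ⟨hu₀, hxu₀⟩ (hfin x)
            _ = n := hn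
        exact ih _ hlt x' hx'.1 rfl
  obtain ⟨x₁, hx₁⟩ := hX0ne
  obtain ⟨x, hx, hall⟩ := hmain _ x₁ hx₁ rfl
  choose y hyC hy using fun a => hGATE V Γ hΓ (C a) (hCconv a) (hCne a) x
  refine ⟨x, y, ?_, ?_⟩
  · intro a
    have h1 : (𝒜 a : Set (Set V)) ⊆ {W | W ∈ walls Γ ∧ y a ∈ W ∧ x ∉ W} := by
      intro A hA
      refine ⟨hw a A hA, hyC a A hA, ?_⟩
      exact hx Aᶜ ((hDDmem _).2 ⟨a, A, hA, rfl⟩)
    obtain ⟨h2, h3⟩ := walls_sep hΓ (y a) x
    have h4 := Set.ncard_le_ncard h1 h2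
    rw [Set.ncard_coe_finset, h3, SimpleGraph.dist_comm] at h4
    exact (hcard a).trans h4
  · intro a b hab A hA B hB hxA hyA hxB hyB
    have hCA := hy a A hA hxA hyA
    have hCB := hy b B hB hxB hyB
    refine ⟨?_, ?_, ?_, ⟨x, hxA, hxB⟩⟩
    · obtain ⟨v, hv, hv'⟩ := hCC a b
      exact ⟨v, hCA hv, hCB hv'⟩
    · by_contra hcon
      refine hxB (hall B ⟨hB, a, b, hab, ?_, hCB⟩)
      intro v hv
      by_contra hvB
      exact hcon ⟨v, hCA hv, hvB⟩
    · by_contra hcon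
      refine hxA (hall A ⟨hA, a, b, hab, hCA, ?_⟩)
      intro v hv
      by_contra hvA
      exact hcon ⟨v, hvA, hCB hv⟩

end Pool.Agent.Run7.h228.QF
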