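import Pool.Agent.Run7.h230.QF.Stm

set_option autoImplicit false

namespace Pool.Agent.Run7.h228.QF

open Pool.Agent.H97R3.VR (IsMedian IsConvex)
open Pool.Agent.TH97.VR (walls walls_compl wall_convex walls_sep)
open Pool.Agent.Run7.h230.QF
open Pointwise

/-- powers -/
theorem fx_zpow (hFXG : S_FXG) {V G : Type} [Group G] [MulAction G V] {Γ : SimpleGraph V}
    {N k : ℕ} {f : (Fin k → ℤ) → V} {i : Fin k} {g : G} (hg : Fx Γ N f i g) (n : ℤ) :
    Fx Γ N f i (g ^ n) ∧ tau Γ f i (g ^ n) = n * tau Γ f i g := by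
  obtain ⟨-, -, h1, h2⟩ := hFXG V G Γ N k f i g g hg hg
  induction n using Int.induction_on with
  | zero =>
    obtain ⟨h3, h4, -, -⟩ := hFXG V G Γ N k f i g g⁻¹ hg h1
    rw [mul_inv_cancel] at h3 h4
    rw [zpow_zero]
    exact ⟨h3, by rw [h4, h2]; ring⟩
  | succ n ih =>
    obtain ⟨h3, h4, -, -⟩ := hFXG V G Γ N k f i (g ^ (n : ℤ)) g ih.1 hg
    rw [zpow_add_one]
    exact ⟨h3, by rw [h4, ih.2]; ring⟩
  | pred n ih =>
    obtain ⟨h3, h4, -, -⟩ := hFXG V G Γ N k f i (g ^ (-(n : ℤ))) g⁻¹ ih.1 h1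
    rw [zpow_sub_one]
    exact ⟨h3, by rw [h4, ih.2, h2]; ring⟩

theorem grid_zero {V : Type} {Γ : SimpleGraph V} (hΓ : IsMedian Γ) (n : ℕ) : Grid Γ n 0 := by
  obtain ⟨x⟩ := hΓ.conn.nonempty
  refine ⟨fun _ => ∅, fun _ => Nat.zero_le _, fun _ => ⟨x, x, ?_⟩, ?_⟩
  · intro A hA
    exact absurd hA (Finset.notMem_empty A)
  · intro a b _ A hA
    exact absurd hA (Finset.notMem_empty A)

theorem WP_shift {V : Type} {Γ : SimpleGraph V} (hΓ : IsMedian Γ) {k : ℕ}
    {f : (Fin k → ℤ) → V} (hf : IsFlat Γ f) {i : Fin k} {x : Fin k → ℤ} (hx : x i = 0) :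
    WP Γ (fun z => f (z + x)) i = WP Γ f i := by
  ext A
  constructor
  · rintro ⟨j, hj, rfl⟩
    exact ⟨j, hj, by rw [hf.HS_shift hΓ, hx, add_zero]⟩
  · rintro ⟨j, hj, rfl⟩
    exact ⟨j, hj, by rw [hf.HS_shift hΓ, hx, add_zero]⟩

theorem tau_shift {V G : Type} [Group G] [MulAction G V] {Γ : SimpleGraph V} (hΓ : IsMedian Γ)
    {k : ℕ} {f : (Fin k → ℤ) → V} (hf : IsFlat Γ f) {i : Fin k} {x : Fin k → ℤ} (hx : x i = 0)
    (g : G) : tau Γ (fun z => f (z + x)) i g = tau Γ f i g := by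
  unfold tau
  rw [WP_shift hΓ hf hx]

/-- common powers -/
def CPw {G : Type} [Group G] (g h : G) : Prop := ∃ a b : ℤ, a ≠ 0 ∧ b ≠ 0 ∧ g ^ a = h ^ b

theorem CPw.trans {G : Type} [Group G] {g h k : G} (h1 : CPw g h) (h2 : CPw h k) : CPw g k := by
  obtain ⟨a, b, ha, hb, e1⟩ := h1
  obtain ⟨c, d, hc, hd, e2⟩ := h2
  refine ⟨a * c, d * b, mul_ne_zero ha hc, mul_ne_zero hd hb, ?_⟩
  rw [zpow_mul, e1, ← zpow_mul, mul_comm b c, zpow_mul, e2, ← zpow_mul]

theorem CPw.symm {G : Type} [Group G] {g h : G} (h1 : CPw g h) : CPw h g := by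
  obtain ⟨a, b, ha, hb, e1⟩ := h1
  exact ⟨b, a, hb, ha, e1.symm⟩

theorem CPw.refl {G : Type} [Group G] (g : G) : CPw g g := ⟨1, 1, one_ne_zero, one_ne_zero, rfl⟩

theorem t_DET : S_ELT → S_MOV → S_CNJ → S_CP → S_FXG → S_DET := by
  intro hELT hMOV hCNJ hCP hFXG V G _ _ Γ hA hZ k N hk hG L hL hne i R hDet
  have hΓ := hA.med
  have hN : 0 < N := by
    rcases Nat.eq_zero_or_pos N with h | h
    · subst h
      exact absurd (grid_zero hΓ (k + 1)) hG
    · exact h
  -- larger radius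
  obtain ⟨R', hR', hDet'⟩ : ∃ R' : ℕ, N + 1 ≤ R' ∧ Det Γ L i R' := by
    refine ⟨max R (N + 1), le_max_right _ _, ?_⟩
    intro f₁ h₁ f₂ h₂ hag
    refine hDet f₁ h₁ f₂ h₂ fun z hz => hag z fun i' => ?_
    exact (hz i').trans (by exact_mod_cast le_max_left R (N + 1))
  obtain ⟨f, hf⟩ := hne
  have hff := hL.flat f hf
  obtain ⟨i₂, hi₂⟩ : ∃ i₂ : Fin k, i₂ ≠ i := by
    have : Nontrivial (Fin k) := Fin.nontrivial_iff_two_le.2 hk
    exact exists_ne i
  have hsi : ∀ t : ℤ, (Pi.single i₂ t : Fin k → ℤ) i = 0 := by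
    intro t
    rw [Pi.single_eq_of_ne (Ne.symm hi₂)]
  -- the elements
  choose g hg1 hg2 using fun n : ℕ =>
    hELT V G Γ hA k N hG L hL i R' hR' hDet' f hf (Pi.single i₂ (n : ℤ)) (hsi n)
  have hgn : ∀ n : ℕ, Fx Γ N (fun z => f (z + Pi.single i₂ (n : ℤ))) i (g n) := by
    intro n
    refine hg2 n _ (hsi n) fun i' => ?_
    rw [sub_self, abs_zero]
    exact zero_le_one
  have hgn1 : ∀ n : ℕ, Fx Γ N (fun z => f (z + Pi.single i₂ ((n + 1 : ℕ) : ℤ))) i (g n) := by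
    intro n
    refine hg2 n _ (hsi _) fun i' => ?_
    by_cases h : i' = i₂
    · subst h
      rw [Pi.single_eq_same, Pi.single_eq_same]
      push_cast
      simp
    · rw [Pi.single_eq_of_ne h, Pi.single_eq_of_ne h]
      simp
  have hcp : ∀ n : ℕ, CPw (g n) (g (n + 1)) := by
    intro n
    refine hCP V G Γ hA k N hG _ (hff.shift _) i (g n) (g (n + 1)) (hgn1 n) (hgn (n + 1)) ?_ ?_
    · rw [tau_shift hΓ hff (hsi _)]
      exact hg1 n
    · rw [tau_shift hΓ hff (hsi _)]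
      exact hg1 (n + 1)
  have hcp' : ∀ n m : ℕ, CPw (g n) (g (n + m)) := by
    intro n m
    induction m with
    | zero => exact CPw.refl _
    | succ m ih => exact ih.trans (hcp (n + m))
  -- the moving element
  obtain ⟨n₁, n₂, q, hn, hsub, hag⟩ := hMOV V G Γ hA k N hG f hff i₂ R'
  obtain ⟨hqP, hcnj⟩ := hCNJ V G Γ hA k N hG L hL i i₂ R' hi₂ hR' hDet' f hf n₁ n₂ q hag
  obtain ⟨hfx, htau⟩ := hcnj (g n₁) (hgn n₁)
  have h1 : CPw (q * g n₁ * q⁻¹) (g n₂) := by
    refine hCP V G Γ hA k N hG _ (hff.shift _) i _ _ hfx (hgn n₂) ?_ ?_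
    · rw [tau_shift hΓ hff (hsi _), htau]
      exact hg1 n₁
    · rw [tau_shift hΓ hff (hsi _)]
      exact hg1 n₂
  have h2 : CPw (q * g n₁ * q⁻¹) (g n₁) := by
    refine h1.trans ?_
    have h3 := hcp' n₁ (n₂ - n₁)
    rw [show n₁ + (n₂ - n₁) = n₂ by omega] at h3
    exact h3.symm
  obtain ⟨a, b, ha, hb, hab⟩ := h2
  -- the exponents are equal
  have ht1 := (fx_zpow hFXG hfx a).2
  have ht2 := (fx_zpow hFXG (hgn n₁) b).2
  rw [tau_shift hΓ hff (hsi _), tau_shift hΓ hff (hsi _)] at ht1 ht2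
  rw [hab, ht2, htau] at ht1
  have hab' : b = a := mul_right_cancel₀ (hg1 n₁) ht1
  subst hab'
  set z := g n₁ ^ b with hz
  have hcomm : q * z = z * q := by
    have h4 : (q * g n₁ * q⁻¹) ^ b = q * g n₁ ^ b * q⁻¹ := conj_zpow
    rw [h4] at hab
    exact mul_inv_eq_iff_eq_mul.1 hab
  have hcomm' : Commute z q := hcomm.symm
  -- the half-space
  set P := HS Γ f i₂ n₁ with hP
  have hzfx := (fx_zpow hFXG (hgn n₁) b).1
  have hzP : z • P = P := by
    have h4 := hzfx.2 i₂ hi₂ 0 le_rfl (by exact_mod_cast hN)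
    rw [hff.HS_shift hΓ, Pi.single_eq_same, zero_add] at h4
    exact h4
  have hqP' : q • P ⊂ P := by
    rw [hqP]
    exact hsub
  have hzmP : ∀ m : ℤ, z ^ m • P = P := by
    intro m
    have h5 : z ∈ MulAction.stabilizer G P := hzP
    exact (MulAction.stabilizer G P).zpow_mem h5 m
  have hqn : ∀ n : ℕ, q ^ n • P ⊆ P := by
    intro n
    induction n with
    | zero => rw [pow_zero, one_smul]
    | succ n ih =>
      rw [pow_succ', mul_smul]
      exact (Set.smul_set_mono ih).trans hqP'.subset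
  have hqn' : ∀ n : ℕ, 0 < n → q ^ n • P ≠ P := by
    intro n hn0 heq
    obtain ⟨n', rfl⟩ : ∃ n', n = n' + 1 := ⟨n - 1, by omega⟩
    rw [pow_succ', mul_smul] at heq
    have h6 : q • q ^ n' • P ⊆ q • P := Set.smul_set_mono (hqn n')
    rw [heq] at h6
    exact hqP'.not_subset h6
  have hqz : ∀ n : ℤ, q ^ n • P = P → n = 0 := by
    intro n hn0
    by_contra hne0
    rcases lt_or_gt_of_ne hne0 with h | h
    · obtain ⟨n', hn'⟩ : ∃ n' : ℕ, n = -(n' : ℤ) := ⟨n.natAbs, by omega⟩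
      have h7 : q ^ n' • P = P := by
        have h8 : q ^ (n' : ℤ) • q ^ n • P = q ^ (n' : ℤ) • P := by rw [hn0]
        rw [← mul_smul, ← zpow_add, hn', add_neg_cancel, zpow_zero, one_smul, zpow_natCast] at h8
        exact h8.symm
      exact hqn' n' (by omega) h7
    · obtain ⟨n', hn'⟩ : ∃ n' : ℕ, n = (n' : ℤ) := ⟨n.natAbs, by omega⟩
      rw [hn', zpow_natCast] at hn0
      exact hqn' n' (by omega) hn0
  refine hZ ⟨{ toFun := fun x => z ^ (Multiplicative.toAdd x).1 * q ^ (Multiplicative.toAdd x).2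
               map_one' := by simp
               map_mul' := ?_ }, ?_⟩
  · intro x y
    show z ^ ((Multiplicative.toAdd x).1 + (Multiplicative.toAdd y).1) *
      q ^ ((Multiplicative.toAdd x).2 + (Multiplicative.toAdd y).2) = _
    rw [zpow_add, zpow_add]
    have h9 := (hcomm'.zpow_zpow (Multiplicative.toAdd y).1 (Multiplicative.toAdd x).2).eq
    rw [mul_assoc, ← mul_assoc (z ^ (Multiplicative.toAdd y).1), h9]
    simp only [mul_assoc]
  · rw [injective_iff_map_eq_one]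
    intro x hx
    have hx' : z ^ (Multiplicative.toAdd x).1 * q ^ (Multiplicative.toAdd x).2 = 1 := hx
    have h10 : (Multiplicative.toAdd x).2 = 0 := by
      apply hqz
      have h11 : (z ^ (Multiplicative.toAdd x).1 * q ^ (Multiplicative.toAdd x).2) • P = P := by
        rw [hx', one_smul]
      rw [mul_smul] at h11
      have h12 := congrArg (fun S => (z ^ (Multiplicative.toAdd x).1)⁻¹ • S) h11
      simp only [inv_smul_smul] at h12
      rw [h12, ← zpow_neg]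
      exact hzmP _
    rw [h10, zpow_zero, mul_one] at hx'
    have h13 : (Multiplicative.toAdd x).1 = 0 := by
      have h14 := (fx_zpow hFXG hzfx (Multiplicative.toAdd x).1).2
      have h15 := (fx_zpow hFXG hzfx 0).2
      rw [zpow_zero, zero_mul] at h15
      rw [hx', h15] at h14
      have h16 := (fx_zpow hFXG (hgn n₁) b).2
      rw [tau_shift hΓ hff (hsi _), tau_shift hΓ hff (hsi _)] at h16
      rw [tau_shift hΓ hff (hsi _), h16] at h14
      rcases mul_eq_zero.1 h14.symm with h | h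
      · exact h
      · exact absurd h (mul_ne_zero hb (hg1 n₁))
    exact Multiplicative.toAdd.injective (Prod.ext h13 h10)

end Pool.Agent.Run7.h228.QF
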