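import Pool.Agent.Run7.h230.QF.Stm

set_option autoImplicit false

namespace Pool.Agent.Run7.h228.QF

open Pool.Agent.H97R3.VR (IsMedian IsConvex Btw gp gp_dist gp_eq)
open Pool.Agent.TH97.VR (walls walls_compl wall_convex walls_sep)
open Pool.Agent.Run7.h230.QF

theorem t_PROD : S_HEL → S_GATE → S_PROD := by
  classical
  intro hHEL hGATE V Γ hΓ m N x y hN hcross
  -- the points of the geodesics
  set γ : Fin m → ℕ → V := fun a n => gp Γ (y a) x n with hγ
  have hγx : ∀ a n, n ≤ N → Γ.dist (γ a n) x = n := by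
    intro a n hn
    have h1 := gp_eq hΓ (v := y a) (s := x) (r := Γ.dist (y a) x) rfl 0 n (by
      have := hN a
      rw [SimpleGraph.dist_comm] at this
      omega)
    rw [zero_add] at h1
    rw [SimpleGraph.dist_comm]
    exact h1
  have hγb : ∀ a n, n ≤ N → Btw Γ x (y a) (γ a n) := by
    intro a n hn
    have h1 := hγx a n hn
    have h3 := hN a
    have h2 := gp_dist hΓ (v := y a) (s := x) (r := Γ.dist (y a) x) rfl n (by
      rw [SimpleGraph.dist_comm] at h3
      omega)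
    have h2' : Γ.dist (γ a n) (y a) + n = Γ.dist (y a) x := by
      rw [SimpleGraph.dist_comm]
      exact h2
    have h4 : Γ.dist x (γ a n) = n := by
      rw [SimpleGraph.dist_comm]
      exact h1
    have h5 : Γ.dist x (y a) = Γ.dist (y a) x := SimpleGraph.dist_comm
    show Γ.dist x (γ a n) + Γ.dist (γ a n) (y a) = Γ.dist x (y a)
    omega
  have hγγ : ∀ a n n', n ≤ n' → n' ≤ N → Btw Γ x (γ a n') (γ a n) := by
    intro a n n' hnn hn'
    have h1 := hγx a n (hnn.trans hn')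
    have h2 := hγx a n' hn'
    have h3 := hN a
    have h4 := gp_eq hΓ (v := y a) (s := x) (r := Γ.dist (y a) x) rfl n (n' - n) (by
      rw [SimpleGraph.dist_comm] at h3
      omega)
    rw [show n + (n' - n) = n' by omega] at h4
    have h4' : Γ.dist (γ a n) (γ a n') = n' - n := h4
    have h5 : Γ.dist x (γ a n) = Γ.dist (γ a n) x := SimpleGraph.dist_comm
    have h6 : Γ.dist x (γ a n') = Γ.dist (γ a n') x := SimpleGraph.dist_comm
    show Γ.dist x (γ a n) + Γ.dist (γ a n) (γ a n') = Γ.dist x (γ a n')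
    omega
  -- the half-spaces
  have hUf : ∀ a n, {A | A ∈ walls Γ ∧ γ a n ∈ A ∧ x ∉ A}.Finite := fun a n =>
    (walls_sep hΓ (γ a n) x).1
  set U : Fin m → ℕ → Finset (Set V) := fun a n => (hUf a n).toFinset with hU
  have hUmem : ∀ a n A, A ∈ U a n ↔ A ∈ walls Γ ∧ γ a n ∈ A ∧ x ∉ A := by
    intro a n A
    rw [hU]
    simp only [Set.Finite.mem_toFinset, Set.mem_ofPred_eq]
  have hUcard : ∀ a n, n ≤ N → (U a n).card = n := by
    intro a n hn
    have h1 := (walls_sep hΓ (γ a n) x).2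
    rw [Set.ncard_eq_toFinset_card _ (hUf a n), hγx a n hn] at h1
    exact h1
  have hbt : ∀ A ∈ walls Γ, ∀ u v, x ∉ A → Btw Γ x v u → u ∈ A → v ∈ A := by
    intro A hA u v hx hb hu
    by_contra hv
    exact wall_convex hΓ (walls_compl hΓ hA) x hx v hv u hb hu
  have hUmono : ∀ a n n', n ≤ n' → n' ≤ N → U a n ⊆ U a n' := by
    intro a n n' h h' A hA
    rw [hUmem] at hA ⊢
    exact ⟨hA.1, hbt A hA.1 _ _ hA.2.2 (hγγ a n n' h h') hA.2.1, hA.2.2⟩
  have hUy : ∀ a n, n ≤ N → ∀ A ∈ U a n, y a ∈ A := by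
    intro a n hn A hA
    rw [hUmem] at hA
    exact hbt A hA.1 _ _ hA.2.2 (hγb a n hn) hA.2.1
  have hUcross : ∀ a b, a ≠ b → ∀ n n', n ≤ N → n' ≤ N → ∀ A ∈ U a n, ∀ B ∈ U b n',
      Cross A B := by
    intro a b hab n n' hn hn' A hA B hB
    have h1 := (hUmem a n A).1 hA
    have h2 := (hUmem b n' B).1 hB
    exact hcross a b hab A h1.1 B h2.1 h1.2.2 (hUy a n hn A hA) h2.2.2 (hUy b n' hn' B hB)
  have hUdisj : ∀ a b, a ≠ b → ∀ n n', n ≤ N → n' ≤ N → Disjoint (U a n) (U b n') := by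
    intro a b hab n n' hn hn'
    rw [Finset.disjoint_left]
    intro A hA hB
    obtain ⟨v, hv1, hv2⟩ := (hUcross a b hab n n' hn hn' A hA A hB).2.1
    exact hv2 hv1
  set UU : (Fin m → ℕ) → Finset (Set V) := fun z => Finset.univ.biUnion (fun a => U a (z a))
    with hUU
  have hUUmem : ∀ z A, A ∈ UU z ↔ ∃ a, A ∈ U a (z a) := by
    intro z A
    simp only [hUU, Finset.mem_biUnion, Finset.mem_univ, true_and]
  have hUUx : ∀ z, ∀ A ∈ UU z, A ∈ walls Γ ∧ x ∉ A := by
    intro z A hA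
    obtain ⟨a, ha⟩ := (hUUmem z A).1 hA
    have := (hUmem _ _ _).1 ha
    exact ⟨this.1, this.2.2⟩
  have hpair : ∀ z : Fin m → ℕ, (∀ a, z a ≤ N) → ∀ A ∈ UU z, ∀ B ∈ UU z, (A ∩ B).Nonempty := by
    intro z hz A hA B hB
    obtain ⟨a, ha⟩ := (hUUmem z A).1 hA
    obtain ⟨b, hb⟩ := (hUUmem z B).1 hB
    by_cases hab : a = b
    · subst hab
      exact ⟨γ a (z a), ((hUmem _ _ _).1 ha).2.1, ((hUmem _ _ _).1 hb).2.1⟩
    · exact (hUcross a b hab _ _ (hz a) (hz b) A ha B hb).1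
  have hF : ∀ z : Fin m → ℕ, (∀ a, z a ≤ N) → ∃ p, ∀ A ∈ walls Γ, (x ∉ A ∧ p ∈ A) ↔ A ∈ UU z := by
    intro z hz
    have hKc : IsConvex Γ {v | ∀ A ∈ UU z, v ∈ A} := by
      intro u hu v hv p hp A hA
      exact wall_convex hΓ (hUUx z A hA).1 u (hu A hA) v (hv A hA) p hp
    obtain ⟨p, hp, hgate⟩ := hGATE V Γ hΓ {v | ∀ A ∈ UU z, v ∈ A} hKc
      (hHEL V Γ hΓ (UU z) (fun A hA => wall_convex hΓ (hUUx z A hA).1) (hpair z hz)) x
    refine ⟨p, fun A hA => ⟨?_, fun h => ⟨(hUUx z A h).2, hp A h⟩⟩⟩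
    rintro ⟨hxA, hpA⟩
    have hK := hgate A hA hxA hpA
    -- some member of the family is contained in `A`
    obtain ⟨H, hH, hHA⟩ : ∃ H ∈ UU z, H ⊆ A := by
      by_contra hcon
      push Not at hcon
      obtain ⟨v, hv⟩ := hHEL V Γ hΓ (insert Aᶜ (UU z)) (by
        intro B hB
        rcases Finset.mem_insert.1 hB with rfl | hB
        · exact wall_convex hΓ (walls_compl hΓ hA)
        · exact wall_convex hΓ (hUUx z B hB).1) (by
        have h1 : ∀ B ∈ UU z, (Aᶜ ∩ B).Nonempty := by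
          intro B hB
          obtain ⟨v, hv, hv'⟩ := Set.not_subset.1 (hcon B hB)
          exact ⟨v, hv', hv⟩
        intro B hB B' hB'
        rcases Finset.mem_insert.1 hB with rfl | hB <;>
          rcases Finset.mem_insert.1 hB' with rfl | hB'
        · exact ⟨x, hxA, hxA⟩
        · exact h1 B' hB'
        · rw [Set.inter_comm]; exact h1 B hB
        · exact hpair z hz B hB B' hB')
      exact hv Aᶜ (Finset.mem_insert_self _ _)
        (hK fun B hB => hv B (Finset.mem_insert_of_mem hB))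
    obtain ⟨a, ha⟩ := (hUUmem z H).1 hH
    exact (hUUmem z A).2 ⟨a, (hUmem _ _ _).2 ⟨hA, hHA ((hUmem _ _ _).1 ha).2.1, hxA⟩⟩
  have : Nonempty V := ⟨x⟩
  choose! F hFz using hF
  refine ⟨F, fun z w hz hw => ?_⟩
  -- the distance
  set T1 : Finset (Set V) := Finset.univ.biUnion (fun a => U a (z a) \ U a (w a)) with hT1
  set T2 : Finset (Set V) := Finset.univ.biUnion (fun a => U a (w a) \ U a (z a)) with hT2
  have hTgen : ∀ z w : Fin m → ℕ, (∀ a, z a ≤ N) → (∀ a, w a ≤ N) → ∀ A,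
      A ∈ Finset.univ.biUnion (fun a => U a (z a) \ U a (w a)) ↔
        A ∈ walls Γ ∧ x ∉ A ∧ F z ∈ A ∧ F w ∉ A := by
    intro z w hz hw A
    constructor
    · intro hA
      simp only [Finset.mem_biUnion, Finset.mem_univ, true_and, Finset.mem_sdiff] at hA
      obtain ⟨a, ha, ha'⟩ := hA
      have h1 := (hUmem _ _ _).1 ha
      have h2 := (hFz z hz A h1.1).2 ((hUUmem z A).2 ⟨a, ha⟩)
      refine ⟨h1.1, h1.2.2, h2.2, fun h3 => ?_⟩
      obtain ⟨b, hb⟩ := (hUUmem w A).1 ((hFz w hw A h1.1).1 ⟨h1.2.2, h3⟩)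
      by_cases hab : a = b
      · subst hab
        exact ha' hb
      · exact Finset.disjoint_left.1 (hUdisj a b hab _ _ (hz a) (hw b)) ha hb
    · rintro ⟨h1, h2, h3, h4⟩
      obtain ⟨a, ha⟩ := (hUUmem z A).1 ((hFz z hz A h1).1 ⟨h2, h3⟩)
      simp only [Finset.mem_biUnion, Finset.mem_univ, true_and, Finset.mem_sdiff]
      refine ⟨a, ha, fun h => h4 ?_⟩
      exact ((hFz w hw A h1).2 ((hUUmem w A).2 ⟨a, h⟩)).2
  have hcardgen : ∀ z w : Fin m → ℕ, (∀ a, z a ≤ N) → (∀ a, w a ≤ N) →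
      (Finset.univ.biUnion (fun a => U a (z a) \ U a (w a))).card = ∑ a, (z a - w a) := by
    intro z w hz hw
    rw [Finset.card_biUnion]
    · refine Finset.sum_congr rfl fun a _ => ?_
      rcases le_total (z a) (w a) with h | h
      · rw [Finset.sdiff_eq_empty_iff_subset.2 (hUmono a _ _ h (hw a)), Finset.card_empty]
        omega
      · rw [Finset.card_sdiff_of_subset (hUmono a _ _ h (hz a)), hUcard a _ (hz a),
          hUcard a _ (hw a)]
    · intro a _ b _ hab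
      exact (hUdisj a b hab _ _ (hz a) (hz b)).mono Finset.sdiff_subset Finset.sdiff_subset
  have hset : {W | W ∈ walls Γ ∧ F z ∈ W ∧ F w ∉ W} =
      ((T1 ∪ T2.image (fun A => Aᶜ) : Finset (Set V)) : Set (Set V)) := by
    ext W
    rw [Finset.mem_coe, Finset.mem_union, hT1, hTgen z w hz hw W, Finset.mem_image]
    constructor
    · rintro ⟨h1, h2, h3⟩
      by_cases hx : x ∈ W
      · right
        refine ⟨Wᶜ, ?_, compl_compl W⟩
        rw [hT2, hTgen w z hw hz]
        exact ⟨walls_compl hΓ h1, fun h => h hx, h3, fun h => h h2⟩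
      · exact Or.inl ⟨h1, hx, h2, h3⟩
    · rintro (⟨h1, h2, h3, h4⟩ | ⟨A, hA, rfl⟩)
      · exact ⟨h1, h3, h4⟩
      · rw [hT2, hTgen w z hw hz] at hA
        exact ⟨walls_compl hΓ hA.1, hA.2.2.2, fun h => h hA.2.2.1⟩
  have hdist := (walls_sep hΓ (F z) (F w)).2
  rw [hset, Set.ncard_coe_finset, Finset.card_union_of_disjoint,
    Finset.card_image_of_injective _ compl_injective, hT1, hT2, hcardgen z w hz hw,
    hcardgen w z hw hz, ← Finset.sum_add_distrib] at hdist
  · rw [← hdist]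
    push_cast
    refine Finset.sum_congr rfl fun a _ => ?_
    rcases le_total (z a) (w a) with h | h
    · rw [abs_of_nonpos (by omega)]
      omega
    · rw [abs_of_nonneg (by omega)]
      omega
  · rw [Finset.disjoint_left]
    intro A hA hA'
    obtain ⟨B, hB, rfl⟩ := Finset.mem_image.1 hA'
    rw [hT1, hTgen z w hz hw] at hA
    rw [hT2, hTgen w z hw hz] at hB
    exact hA.2.1 hB.2.1

end Pool.Agent.Run7.h228.QF
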